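import Pool.Agent.H4.GEN.NonwC
import Pool.Agent.H80.STAT.Sta

/-!
# The static theorem with countably many sets of constants

The constants of `StaStmt` depend on the slopes. Integral slopes are countable; the constants of a
vector of slopes which is not integral are good for all the vectors near it, so countably many sets
of constants are enough.
-/

set_option autoImplicit false

namespace Pool.STAT

open Finset MvPolynomial
open Pool.Agent.H49.Ent Pool.Agent.H32.Dense Pool.STK Pool.KS3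

/-- The count depends on the weight of the height only. -/
theorem NDat.Cnt.congr {D : NDat} {d d' : ℕ → ℕ} {z n v U : ℕ} {ρ a κ' : ℝ} {q : D.Ω → ℝ}
    (h : D.Cnt d z n v U ρ a κ' q) (hd : d' n = d n) : D.Cnt d' z n v U ρ a κ' q := by
  have e : D.pN d' z v n = D.pN d z v n := by
    funext ω
    unfold NDat.pN
    rw [hd]
  unfold NDat.Cnt at h ⊢
  rw [e]
  exact h

/-- A vector of slopes as a sequence. -/
noncomputable def slp (n : ℕ) (v : Fin (n + 1) → ℝ) (i : ℕ) : ℝ :=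
  if h : i < n + 1 then v ⟨i, h⟩ else 1

theorem slp_of_le {n : ℕ} (v : Fin (n + 1) → ℝ) {i : ℕ} (hi : i ≤ n) :
    slp n v i = v ⟨i, Nat.lt_succ_of_le hi⟩ := dif_pos _

theorem slp_ge {n : ℕ} {v : Fin (n + 1) → ℝ} (h : ∀ i, 1 ≤ v i) (i : ℕ) : 1 ≤ slp n v i := by
  unfold slp
  split_ifs with hi
  · exact h _
  · exact le_rfl

/-- **Countably many sets of constants for the static theorem.** -/
theorem sta_cover (hS : StaStmt) (n K A : ℕ) (C₁ C₃ a ρ : ℝ) (hn : 1 ≤ n) (hC₁ : 1 ≤ C₁)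
    (hC₃ : 1 ≤ C₃) (ha : 0 < a) (hρ : 0 < ρ) (hρ1 : ρ ≤ 1) :
    ∃ (S : ℕ → ℕ → ℝ) (U M K' z₀ : ℕ → ℕ) (C₆ η' κ : ℕ → ℝ),
    (∀ j, S j 0 = 1 ∧ (∀ i, 1 ≤ S j i) ∧ 1 ≤ U j ∧ 0 < η' j ∧ 0 < κ j) ∧
    ∀ σ : ℕ → ℝ, σ 0 = 1 → (∀ i, 1 ≤ σ i) → ∃ j,
      (∀ i ≤ n, |σ i - S j i| * ((M j : ℝ) + 1) ≤ 1) ∧
      ((∀ i ≤ n, (⌈S j i⌉₊ : ℝ) = S j i) → ∀ i ≤ n, σ i = S j i) ∧
      ∀ (J z : ℕ) (D : NDat) (q : D.Ω → ℝ), z₀ j ≤ z → D.Ok n K J z (M j) σ (κ j) C₁ q →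
        ((∀ i ≤ n, (⌈σ i⌉₊ : ℝ) = σ i) → ∀ k, k + 3 * U j ≤ M j →
          D.Cnt (fun i => ⌈σ i⌉₊) z n (k + U j) (U j) ρ a C₃ q) →
        ∃ v v' i, v ≤ v' ∧ v' ≤ M j ∧ 1 ≤ i ∧ i ≤ n ∧
          D.NewLab J z i v v' A (K' j) (C₆ j) (η' j) q := by
  classical
  have h0 := fun v : {v : Fin (n + 1) → ℝ // v 0 = 1 ∧ ∀ i, 1 ≤ v i} =>
    hS n K A (slp n v.1) (C₁ + 1) C₃ a ρ hn ((slp_of_le v.1 (Nat.zero_le n)).trans v.2.1)
      (slp_ge v.2.2) (by linarith) hC₃ ha hρ hρ1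
  choose U M K' C₆ η' κ z₀ hU hη hκ hN using h0
  obtain ⟨I, hI⟩ : ∃ I : Set {v : Fin (n + 1) → ℝ // v 0 = 1 ∧ ∀ i, 1 ≤ v i},
      I = {v | ∀ i ≤ n, (⌈slp n v.1 i⌉₊ : ℝ) = slp n v.1 i} := ⟨_, rfl⟩
  have hIc : I.Countable := by
    refine Set.MapsTo.countable_of_injOn (t := Set.univ)
      (f := fun v : {v : Fin (n + 1) → ℝ // v 0 = 1 ∧ ∀ i, 1 ≤ v i} =>
        (fun i => ⌈v.1 i⌉₊ : Fin (n + 1) → ℕ)) (fun _ _ => Set.mem_univ _) ?_ Set.countable_univ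
    intro v hv w hw hvw
    rw [hI] at hv hw
    apply Subtype.ext
    funext i
    have h1 := hv i.1 (Nat.lt_succ_iff.1 i.2)
    have h2 := hw i.1 (Nat.lt_succ_iff.1 i.2)
    rw [slp_of_le _ (Nat.lt_succ_iff.1 i.2)] at h1 h2
    have h3 : ⌈v.1 i⌉₊ = ⌈w.1 i⌉₊ := congrFun hvw i
    have h1' : (⌈v.1 i⌉₊ : ℝ) = v.1 i := h1
    have h2' : (⌈w.1 i⌉₊ : ℝ) = w.1 i := h2
    rw [← h1', ← h2', h3]
  obtain ⟨O, hO⟩ : ∃ O : {v : Fin (n + 1) → ℝ // v 0 = 1 ∧ ∀ i, 1 ≤ v i} →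
      Set (Fin (n + 1) → ℝ),
      O = fun v => if v ∈ I then ∅ else Metric.ball v.1 (1 / ((M v : ℝ) + 1)) := ⟨_, rfl⟩
  obtain ⟨T, hTc, hT⟩ := TopologicalSpace.isOpen_iUnion_countable O (fun v => by
    rw [hO]
    simp only
    split_ifs
    · exact isOpen_empty
    · exact Metric.isOpen_ball)
  have hmem : ∀ v : {v : Fin (n + 1) → ℝ // v 0 = 1 ∧ ∀ i, 1 ≤ v i}, v ∉ I →
      ∃ r ∈ T, r ∉ I ∧ dist v.1 r.1 < 1 / ((M r : ℝ) + 1) := by
    intro v hv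
    have h1 : v.1 ∈ ⋃ i, O i := Set.mem_iUnion.2 ⟨v, by
      rw [hO]
      simp only
      rw [if_neg hv]
      exact Metric.mem_ball_self (by positivity)⟩
    rw [← hT] at h1
    obtain ⟨r, hr, h2⟩ := Set.mem_iUnion₂.1 h1
    rw [hO] at h2
    simp only at h2
    by_cases hrI : r ∈ I
    · rw [if_pos hrI] at h2
      exact absurd h2 (Set.notMem_empty _)
    · rw [if_neg hrI] at h2
      exact ⟨r, hr, hrI, Metric.mem_ball.1 h2⟩
  have hne : (T ∪ I).Nonempty := by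
    refine ⟨⟨fun _ => 1, rfl, fun _ => le_rfl⟩, Or.inr ?_⟩
    rw [hI]
    intro i hi
    rw [slp_of_le _ hi]
    simp
  obtain ⟨f, hf⟩ := (hTc.union hIc).exists_eq_range hne
  refine ⟨fun j => slp n (f j).1, fun j => U (f j), fun j => M (f j), fun j => K' (f j),
    fun j => z₀ (f j), fun j => C₆ (f j), fun j => η' (f j), fun j => κ (f j),
    fun j => ⟨(slp_of_le _ (Nat.zero_le n)).trans (f j).2.1, slp_ge (f j).2.2, hU _, hη _, hκ _⟩,
    fun σ hσ0 hσ => ?_⟩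
  -- the vector of the slopes
  obtain ⟨v, hv⟩ : ∃ v : {v : Fin (n + 1) → ℝ // v 0 = 1 ∧ ∀ i, 1 ≤ v i},
      ∀ i : Fin (n + 1), v.1 i = σ i :=
    ⟨⟨fun i => σ i, hσ0, fun i => hσ i⟩, fun _ => rfl⟩
  have hvs : ∀ i ≤ n, slp n v.1 i = σ i := fun i hi => by rw [slp_of_le _ hi, hv]
  by_cases hvI : v ∈ I
  · -- integral slopes
    have hr : v ∈ T ∪ I := Or.inr hvI
    rw [hf] at hr
    obtain ⟨j, hj⟩ := hr
    rw [hI] at hvI
    refine ⟨j, fun i hi => ?_, fun _ i hi => ?_, fun J z D q hz hOk hCnt => ?_⟩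
    · simp only
      rw [hj, hvs i hi, sub_self, abs_zero, zero_mul]
      exact zero_le_one
    · simp only
      rw [hj, hvs i hi]
    · beta_reduce at hz hOk hCnt ⊢
      rw [hj] at hz hOk hCnt ⊢
      refine hN v J z D q hz (hOk.slope ?_ (slp_ge v.2.2) fun i hi => ?_) fun hall k hk => ?_
      · exact (slp_of_le _ (Nat.zero_le n)).trans v.2.1
      · rw [hvs i hi, sub_self, abs_zero, zero_mul]
        exact zero_le_one
      · refine (hCnt (fun i hi => ?_) k hk).congr ?_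
        · rw [← hvs i hi]
          exact hall i hi
        · rw [hvs n le_rfl]
  · -- other slopes
    obtain ⟨r, hrT, hrI, hdist⟩ := hmem v hvI
    have hr : r ∈ T ∪ I := Or.inl hrT
    rw [hf] at hr
    obtain ⟨j, hj⟩ := hr
    have hd : ∀ i ≤ n, |σ i - slp n r.1 i| * ((M r : ℝ) + 1) ≤ 1 := by
      intro i hi
      have h1 : dist (v.1 ⟨i, Nat.lt_succ_of_le hi⟩) (r.1 ⟨i, Nat.lt_succ_of_le hi⟩) <
          1 / ((M r : ℝ) + 1) := (dist_pi_lt_iff (by positivity)).1 hdist _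
      rw [hv, Real.dist_eq, lt_div_iff₀ (by positivity)] at h1
      rw [slp_of_le _ hi]
      exact h1.le
    have hrn : ¬ ∀ i ≤ n, (⌈slp n r.1 i⌉₊ : ℝ) = slp n r.1 i := by
      intro h
      apply hrI
      rw [hI]
      exact h
    refine ⟨j, fun i hi => ?_, fun hall => ?_, fun J z D q hz hOk _ => ?_⟩
    · simp only
      rw [hj]
      exact hd i hi
    · simp only at hall
      rw [hj] at hall
      exact absurd hall hrn
    · beta_reduce at hz hOk ⊢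
      rw [hj] at hz hOk ⊢
      refine hN r J z D q hz (hOk.slope ?_ (slp_ge r.2.2) fun i hi => ?_) fun hall => ?_
      · exact (slp_of_le _ (Nat.zero_le n)).trans r.2.1
      · refine le_trans ?_ (hd i hi)
        exact mul_le_mul_of_nonneg_left (by linarith) (abs_nonneg _)
      · exact absurd hall hrn

end Pool.STAT
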